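import Mathlib
import Pool.Agent.Helper741.PosetChains
import Pool.Agent.Helper741.PosetCount
import Pool.Agent.Helper741.PosetTree
import Pool.Agent.Helper741.PosetSum
import Pool.Agent.Helper741.PosetLex
import Pool.Agent.Helper741.PosetProf
import Pool.Agent.Helper741.PosetReg
import Pool.Agent.Helper741.PosetBent

namespace Pool.Agent.Results.MP_ef39db_co.Classes

open Pool.Agent.Helper741.PosetChains

/-- Partial classification of the finite posets with property (∗) (`PropStar`). -/
theorem result :
    -- (1) products of two chains: complete classification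
    (∀ m n : ℕ, PropStar (Fin (m + 1) × Fin (n + 1)) ↔
      (m ≤ 1 ∨ n ≤ 1 ∨ (m = 2 ∧ n ≤ 4) ∨ (n = 2 ∧ m ≤ 4))) ∧
    -- (2) posets (and lattices) in which every principal ideal, except possibly that of a
    -- greatest element, is a chain: complete criterion with one inequality per element
    (∀ (P : Type) [PartialOrder P] [Fintype P] [Nonempty P],
      (∀ x : P, ¬ IsTop x → IsChain (· ≤ ·) (Set.Iic x)) →
      (PropStar P ↔ ∀ x : P, ¬ IsTop x →
        {y : P | x ≤ y ∧ ¬ IsTop y}.ncard * (MaxChains P).ncard
          ≤ meetCount P {x} * Nat.card P)) ∧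
    -- (3) all series-parallel posets: complete criterion by a recursively computed function
    (∀ t : SP, Nat.card t.real.carrier = t.size ∧ (PropStar t.real.carrier ↔
      ∀ k ≤ t.size, t.profile k * t.size ≤ k * t.profile t.size)) ∧
    -- (4) disconnected posets: exact reduction to the summands
    (∀ (P Q : Type) [PartialOrder P] [PartialOrder Q] [Finite P] [Finite Q] [Nonempty P]
      [Nonempty Q], PropStar (P ⊕ Q) ↔ PropStar P ∧ PropStar Q ∧
        Nat.card P * (MaxChains Q).ncard = Nat.card Q * (MaxChains P).ncard) ∧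
    -- (5) ordinal sums and duals preserve the property
    (∀ (P Q : Type) [PartialOrder P] [PartialOrder Q] [Finite P] [Finite Q] [Nonempty P]
      [Nonempty Q], PropStar P → PropStar Q → PropStar (P ⊕ₗ Q)) ∧
    (∀ (P : Type) [PartialOrder P] [Finite P] [Nonempty P], PropStar P → PropStar Pᵒᵈ) ∧
    -- (6) regular graded posets have the property
    (∀ (P : Type) [PartialOrder P] [Fintype P] [Nonempty P] (ρ : P → ℕ),
      (∀ C ∈ MaxChains P, ∀ x : P, ∃! y, y ∈ C ∧ ρ y = ρ x) →
      (∀ x y : P, ρ x = ρ y → meetCount P {x} = meetCount P {y}) → PropStar P) ∧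
    -- (7) every finite poset becomes a poset with the property after adding a long chain on top
    (∀ (P : Type) [PartialOrder P] [Finite P] [Nonempty P] (k : ℕ),
      Nat.card P * (MaxChains P).ncard ≤ k → PropStar (P ⊕ₗ Fin k)) ∧
    -- (8) a distributive lattice of width two with 16 elements without the property
    (Fintype.card bent = 16 ∧
      (∀ x y z : bent, x ≤ y ∨ y ≤ x ∨ y ≤ z ∨ z ≤ y ∨ x ≤ z ∨ z ≤ x) ∧ ¬ PropStar bent) :=
  ⟨star_grid_iff, fun _ _ _ _ hT => star_tree_iff hT,
    fun t => ⟨t.facts.2.2.1, star_sp_iff t⟩,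
    fun _ _ _ _ _ _ _ _ => star_sum_iff, fun _ _ _ _ _ _ _ _ => star_lex,
    fun _ _ _ _ => star_dual, fun _ _ _ _ ρ h1 h2 => star_regular ρ h1 h2,
    fun _ _ _ _ _ hk => star_add_chain hk, bent_card, bent_width, bent_not_star⟩

end Pool.Agent.Results.MP_ef39db_co.Classes
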